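import Pool.Agent.Helper71.UN.Defs

/-!
# Project UN (MP_d629b1_an), parts A and B: elementary facts about `hh`, `tt`, `prof`
-/

set_option autoImplicit false

open Set Filter Topology Matrix
open scoped ContDiff ComplexConjugate

noncomputable section

namespace Pool.Agent.Helper38.UN

open Pool.Agent.Helper71.UN

theorem hh_add (d z w : ℂ) : hh d (z + w) = hh d z + hh d w := by
  unfold hh
  rw [add_mul, Complex.add_im, add_div]

theorem tt_add (d z w : ℂ) : tt d (z + w) = tt d z + tt d w := by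
  unfold tt
  rw [add_mul, Complex.add_re, add_div]

theorem hh_sub (d z w : ℂ) : hh d (z - w) = hh d z - hh d w := by
  unfold hh
  rw [sub_mul, Complex.sub_im, sub_div]

theorem tt_sub (d z w : ℂ) : tt d (z - w) = tt d z - tt d w := by
  unfold tt
  rw [sub_mul, Complex.sub_re, sub_div]

theorem hh_real (d z : ℂ) (c : ℝ) : hh d ((c : ℂ) * z) = c * hh d z := by
  unfold hh
  rw [mul_assoc, Complex.im_ofReal_mul, mul_div_assoc]

theorem tt_real (d z : ℂ) (c : ℝ) : tt d ((c : ℂ) * z) = c * tt d z := by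
  unfold tt
  rw [mul_assoc, Complex.re_ofReal_mul, mul_div_assoc]

theorem hh_div (d z : ℂ) (c : ℝ) : hh d (z / (c : ℂ)) = hh d z / c := by
  have h := hh_real d z c⁻¹
  rw [Complex.ofReal_inv] at h
  rw [div_eq_inv_mul, h, div_eq_inv_mul]

theorem tt_div (d z : ℂ) (c : ℝ) : tt d (z / (c : ℂ)) = tt d z / c := by
  have h := tt_real d z c⁻¹
  rw [Complex.ofReal_inv] at h
  rw [div_eq_inv_mul, h, div_eq_inv_mul]

theorem hh_zero (d : ℂ) : hh d 0 = 0 := by simp [hh]

theorem tt_zero (d : ℂ) : tt d 0 = 0 := by simp [tt]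

theorem hh_self (d : ℂ) : hh d d = 0 := by
  unfold hh
  rw [Complex.mul_conj, Complex.ofReal_im, zero_div]

theorem tt_self (d : ℂ) : tt d d = ‖d‖ := by
  unfold tt
  rw [Complex.mul_conj, Complex.ofReal_re, Complex.normSq_eq_norm_sq, sq, mul_self_div_self]

theorem hh_neg (d z : ℂ) : hh (-d) z = - hh d z := by
  unfold hh
  rw [map_neg, mul_neg, Complex.neg_im, norm_neg, neg_div]

theorem tt_neg (d z : ℂ) : tt (-d) z = - tt d z := by
  unfold tt
  rw [map_neg, mul_neg, Complex.neg_re, norm_neg, neg_div]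

theorem hh_mul_self (d : ℂ) (t : ℝ) : hh d ((t : ℂ) * d) = 0 := by
  rw [hh_real, hh_self, mul_zero]

theorem tt_mul_self (d : ℂ) (t : ℝ) : tt d ((t : ℂ) * d) = t * ‖d‖ := by
  rw [tt_real, tt_self]

/-- the unit vector -/
theorem norm_unit {d : ℂ} (hd : d ≠ 0) : ‖d / (‖d‖ : ℂ)‖ = 1 := by
  rw [norm_div, Complex.norm_real, norm_norm, div_self (norm_ne_zero_iff.2 hd)]

/-- coordinates -/
theorem eq_coord {d : ℂ} (hd : d ≠ 0) (z : ℂ) :
    z = ((tt d z : ℂ) + (hh d z : ℂ) * Complex.I) * (d / (‖d‖ : ℂ)) := by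
  have hn : (‖d‖ : ℂ) ≠ 0 := by
    rw [Ne, Complex.ofReal_eq_zero]
    exact norm_ne_zero_iff.2 hd
  have h1 : ((tt d z : ℂ) + (hh d z : ℂ) * Complex.I) = z * conj d / (‖d‖ : ℂ) := by
    have h2 := Complex.re_add_im (z * conj d)
    rw [eq_div_iff hn]
    rw [← h2]
    unfold tt hh
    rw [Complex.ofReal_div, Complex.ofReal_div]
    rw [h2]
    conv_rhs => rw [← h2]
    field_simp
  rw [h1]
  have h3 : conj d * d = (‖d‖ : ℂ) * (‖d‖ : ℂ) := by
    rw [mul_comm, Complex.mul_conj, Complex.normSq_eq_norm_sq]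
    push_cast
    ring
  field_simp
  rw [mul_assoc, h3]
  ring

theorem norm_sq_eq {d : ℂ} (hd : d ≠ 0) (z : ℂ) : ‖z‖ ^ 2 = tt d z ^ 2 + hh d z ^ 2 := by
  have hn : ‖d‖ ≠ 0 := norm_ne_zero_iff.2 hd
  unfold tt hh
  rw [div_pow, div_pow, ← add_div, eq_div_iff (pow_ne_zero 2 hn)]
  have h1 : ‖z * conj d‖ ^ 2 = (z * conj d).re ^ 2 + (z * conj d).im ^ 2 := by
    rw [← Complex.normSq_eq_norm_sq, Complex.normSq_apply]
    ring
  rw [← h1, norm_mul, Complex.norm_conj, mul_pow]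

theorem abs_hh_le {d : ℂ} (hd : d ≠ 0) (z : ℂ) : |hh d z| ≤ ‖z‖ := by
  have h := norm_sq_eq hd z
  apply abs_le_of_sq_le_sq _ (norm_nonneg z)
  rw [h]
  nlinarith [sq_nonneg (tt d z)]

theorem abs_tt_le {d : ℂ} (hd : d ≠ 0) (z : ℂ) : |tt d z| ≤ ‖z‖ := by
  have h := norm_sq_eq hd z
  apply abs_le_of_sq_le_sq _ (norm_nonneg z)
  rw [h]
  nlinarith [sq_nonneg (hh d z)]

theorem tt_le {d : ℂ} (hd : d ≠ 0) (z : ℂ) : tt d z ≤ ‖z‖ :=
  (le_abs_self _).trans (abs_tt_le hd z)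

theorem norm_le_add {d : ℂ} (hd : d ≠ 0) (z : ℂ) : ‖z‖ ≤ |tt d z| + |hh d z| := by
  have h := norm_sq_eq hd z
  have h1 : ‖z‖ ^ 2 ≤ (|tt d z| + |hh d z|) ^ 2 := by
    rw [h, add_sq, sq_abs, sq_abs]
    have := mul_nonneg (abs_nonneg (tt d z)) (abs_nonneg (hh d z))
    linarith
  exact (le_abs_self _).trans (abs_le_of_sq_le_sq h1 (by positivity))

/-- distance to the foot point -/
theorem norm_sub_foot {d : ℂ} (hd : d ≠ 0) (z : ℂ) :
    ‖z - ((tt d z / ‖d‖ : ℝ) : ℂ) * d‖ = |hh d z| := by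
  have h1 : z - ((tt d z / ‖d‖ : ℝ) : ℂ) * d = (hh d z : ℂ) * Complex.I * (d / (‖d‖ : ℂ)) := by
    conv_lhs => rw [eq_coord hd z]
    have h2 : tt d (((tt d z : ℂ) + (hh d z : ℂ) * Complex.I) * (d / (‖d‖ : ℂ))) = tt d z := by
      rw [← eq_coord hd z]
    rw [h2, Complex.ofReal_div]
    ring
  rw [h1, norm_mul, norm_unit hd, mul_one, norm_mul, Complex.norm_I, mul_one, Complex.norm_real,
    Real.norm_eq_abs]

theorem continuous_hh (d : ℂ) : Continuous (hh d) := by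
  unfold hh
  fun_prop

theorem continuous_tt (d : ℂ) : Continuous (tt d) := by
  unfold tt
  fun_prop

theorem contDiff_hh (d : ℂ) : ContDiff ℝ ∞ (hh d) := by
  unfold hh
  refine ContDiff.div_const ?_ _
  exact Complex.imCLM.contDiff.comp (contDiff_id.mul contDiff_const)

/-! ## Smooth steps -/

theorem stp_of_nonpos {t : ℝ} (h : t ≤ 0) : stp t = 0 := Real.smoothTransition.zero_of_nonpos h

theorem stp_of_one_le {t : ℝ} (h : 1 ≤ t) : stp t = 1 := Real.smoothTransition.one_of_one_le h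

theorem stp_symm (t : ℝ) : stp (1 - t) = 1 - stp t := by
  unfold stp Real.smoothTransition
  have h1 := Real.smoothTransition.pos_denom t
  have h2 : expNegInvGlue (1 - t) + expNegInvGlue (1 - (1 - t)) ≠ 0 := by
    rw [sub_sub_cancel, add_comm]
    exact h1.ne'
  rw [sub_sub_cancel] at h2 ⊢
  field_simp
  ring

theorem contDiff_stp : ContDiff ℝ ∞ stp := Real.smoothTransition.contDiff

theorem sg_of_le {h : ℝ} (hh : h ≤ -1) : sg h = 0 := stp_of_nonpos (by linarith)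

theorem sg_of_ge {h : ℝ} (hh : 1 ≤ h) : sg h = 1 := stp_of_one_le (by linarith)

theorem sg_neg (h : ℝ) : sg (-h) = 1 - sg h := by
  unfold sg
  rw [← stp_symm]
  congr 1
  ring

theorem prof_of_le {h : ℝ} (hh : h ≤ -1) : prof h = 0 := by
  unfold prof
  rw [sg_of_le hh]
  exact stp_of_nonpos le_rfl

theorem prof_of_ge {h : ℝ} (hh : 1 ≤ h) : prof h = 1 := by
  unfold prof
  rw [sg_of_ge hh]
  exact stp_of_one_le le_rfl

theorem prof_neg (h : ℝ) : prof (-h) = 1 - prof h := by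
  unfold prof
  rw [sg_neg, stp_symm]

theorem prof_zero : prof 0 = 1 / 2 := by
  have h := prof_neg 0
  rw [neg_zero] at h
  linarith

theorem contDiff_prof : ContDiff ℝ ∞ prof := by
  unfold prof sg
  exact contDiff_stp.comp (contDiff_stp.comp ((contDiff_id.add contDiff_const).div_const 2))

end Pool.Agent.Helper38.UN
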