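import Pool.Agent.Helper38.UN.Net
import Pool.Agent.Helper87.UN.ASM
import Pool.Agent.Helper2.UN.GLUE
import Pool.Agent.Helper2.UN.RD1
import Pool.Agent.Helper40.UN.RD2
import Pool.Agent.Helper48.UN.LAB
import Pool.Agent.Helper15.UN.DIS
import Pool.Agent.Helper37.UN.ANG
import Pool.Agent.Helper37.UN.CHD
import Pool.Agent.Helper36.UN.CHT
import Pool.Agent.Helper84.UN.CHP
import Pool.Agent.Helper8.UN.ROW
import Pool.Agent.Helper33.UN.WRW

/-!
# Project UN (MP_d629b1_an), parts A and B: final theorems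
-/

set_option autoImplicit false

noncomputable section

namespace Pool.Agent.Helper38.UN

/-- **(A)** assembly -/
theorem hASM : Pool.Agent.Helper71.UN.StASM := Pool.Agent.Helper87.UN38.hASM

/-- **(B)** the network theorem -/
theorem hNET : Pool.Agent.Helper71.UN.StNET :=
  hNET_of Pool.Agent.Helper2.UN38.hGLUE Pool.Agent.Helper2.UN38.hRD1
    Pool.Agent.Helper40.UN38.hRD2 Pool.Agent.Helper48.UN38.hLAB Pool.Agent.Helper15.UN38.hDIS
    Pool.Agent.Helper37.UN38.hANG Pool.Agent.Helper37.UN38.hCHD Pool.Agent.Helper36.UN38.hCHT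
    Pool.Agent.Helper84.UN38.hCHP Pool.Agent.Helper8.UN38.hROW Pool.Agent.Helper33.UN38.hWRW

end Pool.Agent.Helper38.UN
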