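import Pool.Agent.Helper38.UN.St

/-!
# Project UN (MP_d629b1_an), part B: proof of the network theorem from the modules
-/

set_option autoImplicit false
set_option linter.unusedSectionVars false
set_option linter.unusedVariables false

open Set Filter Topology Matrix
open scoped ContDiff ComplexConjugate

noncomputable section

namespace Pool.Agent.Helper38.UN

open Pool.Agent.Helper71.UN

/-- both constants exist -/
theorem exists_rad (h1 : StRD1) (h2 : StRD2) (κ J : Type) [Fintype κ] [Fintype J] (n : ℕ)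
    (N : Nw κ J n) (S : Finset ℤ) (r₁ r₂ : ℝ) (hN : NwOK N S r₁ r₂) : ∃ r, RadOK N r₁ r₂ r := by
  obtain ⟨r, ⟨⟨a1, a2, a3, a4⟩, a5, a6⟩, hr⟩ :=
    (((h1 κ J n N S r₁ r₂ hN).and (h2 κ J n N S r₁ r₂ hN)).and self_mem_nhdsWithin).exists
  exact ⟨r, hr, a1, a2, a5, a3, a4, a6⟩

theorem exists_eps (h1 : StLAB) (h2 : StDIS) (h3 : StANG) (κ J : Type) [Fintype κ] [Fintype J]
    (n : ℕ) (N : Nw κ J n) (S : Finset ℤ) (r₁ r₂ r : ℝ) (R₀ : κ → ℝ) (hN : NwOK N S r₁ r₂)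
    (hr : 0 < r) : ∃ ε, EpsOK N R₀ r ε := by
  have e1 : ∀ᶠ ε in 𝓝[>] (0 : ℝ), ∀ c, R₀ c * ε < r / 2 := by
    rw [Filter.eventually_all]
    intro c
    have h : Tendsto (fun ε : ℝ => R₀ c * ε) (𝓝[>] 0) (𝓝 (R₀ c * 0)) :=
      ((continuous_const.mul continuous_id).tendsto 0).mono_left nhdsWithin_le_nhds
    rw [mul_zero] at h
    exact h.eventually (gt_mem_nhds (by positivity))
  have e2 : ∀ᶠ ε in 𝓝[>] (0 : ℝ), 4 * ε < r := by
    have h : Tendsto (fun ε : ℝ => 4 * ε) (𝓝[>] 0) (𝓝 (4 * 0)) :=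
      ((continuous_const.mul continuous_id).tendsto 0).mono_left nhdsWithin_le_nhds
    rw [mul_zero] at h
    exact h.eventually (gt_mem_nhds (by positivity))
  obtain ⟨ε, ⟨⟨⟨⟨a1, a2⟩, a3⟩, a4⟩, a5⟩, hε⟩ :=
    (((((h1 κ J n N S r₁ r₂ r hN hr).and (h2 κ J n N S r₁ r₂ r hN hr)).and
      (h3 κ J n N S r₁ r₂ r hN hr)).and (e1)).and e2 |>.and self_mem_nhdsWithin).exists
  exact ⟨ε, hε, a4, a5, a1, a2, a3⟩

section

variable {κ J : Type} [Fintype κ] [Fintype J] {n : ℕ} {N : Nw κ J n} {S : Finset ℤ}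
  {r₁ r₂ r ε : ℝ} {Γ : ℤ → ℂ → Prop} {M : κ → ℂ → ℤ → Matrix (Fin n) (Fin n) ℝ} {R₀ : κ → ℝ}

/-- points of a tube are near the closed wall -/
theorem foot_mem (hN : NwOK N S r₁ r₂) (j : J) (b : Bool) (z : ℂ) (h0 : 0 ≤ tt (N.d j) z)
    (h1 : tt (N.d j) z ≤ ‖N.d j‖) :
    ∃ y ∈ cw N j b, ‖N.sp j b + z - y‖ = |hh (N.d j) z| := by
  have hd := hN.d_ne j
  have hn : 0 < ‖N.d j‖ := norm_pos_iff.2 hd
  refine ⟨N.sp j b + ((tt (N.d j) z / ‖N.d j‖ : ℝ) : ℂ) * N.d j, ?_, ?_⟩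
  · unfold cw
    rw [segment_eq_image']
    refine ⟨tt (N.d j) z / ‖N.d j‖, ⟨by positivity, (div_le_one hn).2 h1⟩, ?_⟩
    simp [Complex.real_smul]
  · rw [add_sub_add_left_eq_sub]
    exact norm_sub_foot hd z

/-- the rows of a tube and of the opposite tube agree -/
theorem tube_op (hW : StWRW) (hR : StROW) (hN : NwOK N S r₁ r₂)
    (hM : ∀ c, VxM N Γ S c (M c) (R₀ c)) (hε : 0 < ε) (j : J) (a : Fin 2) (x : ℂ) :
    (tube N r ε j).row a x = (tube N r ε (N.op j)).row a x := by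
  funext l u
  obtain ⟨-, h2, -, -⟩ := hR κ J n N Γ S r₁ r₂ M R₀ r ε hN hM hε
  rw [h2, h2]
  have e1 : N.lp (N.op j) = N.lq j := hN.oplp j
  have e2 : N.lq (N.op j) = N.lp j := by
    have := hN.oplp (N.op j)
    rw [hN.opop] at this
    exact this.symm
  have e3 : N.e (N.op j) = - N.e j := hN.opsgn j
  have e4 : ∀ b, N.sp (N.op j) b = N.sp j b + N.d j := hN.opsp j
  have e5 : N.d (N.op j) = - N.d j := hN.opd j
  have e6 : ang N ε (N.op j) (x - N.sp (N.op j) (bo a)) =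
      Real.pi / 2 - ang N ε j (x - N.sp j (bo a)) := by
    unfold ang
    rw [e5, e4, ← sub_sub, hh_neg, hh_sub _ _ (N.d j), hh_self, sub_zero, neg_div, prof_neg]
    ring
  rw [e1, e2, e3, e6, e4, e4, add_sub_add_right_eq_sub]
  exact ((hW _ _ (hN.lpq j) (N.e j) _ (bo a) _ l u).2.2).symm

/-- at the edges of a tube the row is pure -/
theorem wrow_out (hW : StWRW) (hN : NwOK N S r₁ r₂) (hr : RadOK N r₁ r₂ r)
    (hε : EpsOK N R₀ r ε) (j : J) (b : Bool) (z : ℂ) (hz : z ∈ tubO N r ε j)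
    (h : ε < |hh (N.d j) z|) (v : ℂ) (l : ℤ) (u : ℂ) :
    wrow (N.lp j) (N.lq j) (N.e j) (ang N ε j z) b v l u = prow (N.lam (N.sp j b + z)) l u := by
  obtain ⟨z1, z2, z3⟩ := hz
  obtain ⟨l1, l2⟩ := hε.lab j b z z2.le z3.le z1
  obtain ⟨w1, w2, -⟩ := hW _ _ (hN.lpq j) (N.e j) 0 b v l u
  rcases lt_abs.1 h with h' | h'
  · have e1 : ang N ε j z = Real.pi / 2 := by
      unfold ang
      rw [prof_of_ge ((one_le_div hε.pos).2 h'.le), mul_one]
    rw [e1, w1, l1 (hε.pos.trans h')]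
    rfl
  · have e1 : ang N ε j z = 0 := by
      unfold ang
      rw [prof_of_le, mul_zero]
      rw [div_le_iff₀ hε.pos]
      linarith
    rw [e1, w2, l2 (by linarith [hε.pos])]
    rfl

/-- pure and tube -/
theorem agree_pt (hW : StWRW) (hR : StROW) (hN : NwOK N S r₁ r₂)
    (hM : ∀ c, VxM N Γ S c (M c) (R₀ c)) (hr : RadOK N r₁ r₂ r) (hε : EpsOK N R₀ r ε)
    (m : ℤ) (j : J) (a : Fin 2) (b : Fin 1) (x : ℂ) (hp : x - 0 ∈ (pur N r ε m).O)
    (ht : x - N.sp j (bo a) ∈ tubO N r ε j) :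
    (pur N r ε m).row b x = (tube N r ε j).row a x := by
  funext l u
  obtain ⟨h1, h2, -, -⟩ := hR κ J n N Γ S r₁ r₂ M R₀ r ε hN hM hε.pos
  rw [sub_zero] at hp
  obtain ⟨p1, p2⟩ := hp
  have h3 : ε < |hh (N.d j) (x - N.sp j (bo a))| := by
    by_contra hcon
    apply p2
    refine Or.inr ⟨j, bo a, not_lt.1 hcon, ?_, ?_⟩
    · linarith [ht.2.1, hr.pos]
    · linarith [ht.2.2, hr.pos]
  rw [h1, h2, wrow_out hW hN hr hε j (bo a) _ ht h3, add_sub_cancel, p1]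

/-- the vertex labels near a vertex, off the closed tubes of the rays -/
theorem nu_eq (hr : RadOK N r₁ r₂ r) (hε : EpsOK N R₀ r ε)
    (hnu : ∀ c a z (s : ℝ), 0 < s → N.nu c a ((s : ℂ) * z) = N.nu c a z)
    (c : κ) (a : Fin n) (z : ℂ) (hz : ‖z‖ < 2 * r) (hz0 : z ≠ 0) (hN : NwOK N S r₁ r₂)
    (h : ∀ j, N.cls j = c → (N.ra j = a ∨ N.rb j = a) →
      ¬ (0 < tt (N.d j) z ∧ |hh (N.d j) z| ≤ ε)) :
    N.nu c a (z / (ε : ℂ)) = N.lam (N.pos c a + z) := by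
  have h1 : z / (ε : ℂ) = ((ε⁻¹ : ℝ) : ℂ) * z := by
    rw [Complex.ofReal_inv, div_eq_inv_mul]
  rw [h1, hnu c a z _ (inv_pos.2 hε.pos)]
  refine (hr.vert c a z hz fun j hj hja hcon => ?_).symm
  rcases hcon.2.lt_or_eq with h2 | h2
  · exact h j hj hja ⟨h2, by rw [hcon.1, abs_zero]; exact hε.pos.le⟩
  · apply hz0
    have h3 := norm_sq_eq (hN.d_ne j) z
    rw [hcon.1, ← h2] at h3
    have h4 : ‖z‖ ^ 2 = 0 := by rw [h3]; ring
    exact norm_eq_zero.1 (pow_eq_zero_iff (two_ne_zero) |>.1 h4)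

/-- size of `z / ε` -/
theorem norm_div_ge (hε : EpsOK N R₀ r ε) (c : κ) (z : ℂ) (hz : r / 2 < ‖z‖) :
    R₀ c ≤ ‖z / (ε : ℂ)‖ := by
  rw [norm_div, Complex.norm_real, Real.norm_eq_abs, abs_of_pos hε.pos, le_div_iff₀ hε.pos]
  linarith [hε.r0 c]

/-- pure and disc -/
theorem agree_pd (hR : StROW) (hN : NwOK N S r₁ r₂)
    (hM : ∀ c, VxM N Γ S c (M c) (R₀ c)) (hr : RadOK N r₁ r₂ r) (hε : EpsOK N R₀ r ε)
    (hnu : ∀ c a z (s : ℝ), 0 < s → N.nu c a ((s : ℂ) * z) = N.nu c a z)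
    (m : ℤ) (c : κ) (a : Fin n) (b : Fin 1) (x : ℂ) (hp : x - 0 ∈ (pur N r ε m).O)
    (hd : ‖x - N.pos c a‖ < r) :
    (pur N r ε m).row b x = (disc N M r ε c).row a x := by
  funext l u
  obtain ⟨h1, -, -, h4⟩ := hR κ J n N Γ S r₁ r₂ M R₀ r ε hN hM hε.pos
  rw [sub_zero] at hp
  obtain ⟨p1, p2⟩ := hp
  have hz : r / 2 < ‖x - N.pos c a‖ := by
    by_contra hcon
    exact p2 (Or.inl ⟨c, a, not_lt.1 hcon⟩)
  have hoff : ∀ j, N.cls j = c → (N.ra j = a ∨ N.rb j = a) →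
      ¬ (0 < tt (N.d j) (x - N.pos c a) ∧ |hh (N.d j) (x - N.pos c a)| ≤ ε) := by
    rintro j hj hja ⟨t1, t2⟩
    obtain ⟨b', hb'⟩ : ∃ b' : Bool, N.sp j b' = N.pos c a := by
      rcases hja with h | h
      · exact ⟨false, by unfold Nw.sp; rw [hj]; simp [h]⟩
      · exact ⟨true, by unfold Nw.sp; rw [hj]; simp [h]⟩
    refine p2 (Or.inr ⟨j, b', ?_, ?_, ?_⟩)
    · rw [hb']; exact t2
    · rw [hb']; exact t1.le
    · rw [hb']
      have := tt_le (hN.d_ne j) (x - N.pos c a)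
      linarith [hr.len j, hr.pos]
  have hx : x = N.pos c a + (x - N.pos c a) := by ring
  rw [h1]
  conv_rhs => rw [hx]
  rw [h4 c a (x - N.pos c a) l u (norm_div_ge hε c _ hz) hoff,
    nu_eq hr hε hnu c a _ (by linarith [hr.pos]) (by
      intro h0
      rw [h0, norm_zero] at hz
      linarith [hr.pos]) hN hoff, ← hx, p1]

/-- tube and disc, start of the wall -/
theorem agree_td (hW : StWRW) (hR : StROW) (hN : NwOK N S r₁ r₂)
    (hM : ∀ c, VxM N Γ S c (M c) (R₀ c)) (hr : RadOK N r₁ r₂ r) (hε : EpsOK N R₀ r ε)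
    (hnu : ∀ c a z (s : ℝ), 0 < s → N.nu c a ((s : ℂ) * z) = N.nu c a z)
    (j : J) (i : Fin 2) (c : κ) (a : Fin n) (x : ℂ) (ht : x - N.sp j (bo i) ∈ tubO N r ε j)
    (hd : ‖x - N.pos c a‖ < r) (hs : N.pos c a = N.sp j (bo i)) :
    (tube N r ε j).row i x = (disc N M r ε c).row a x := by
  obtain ⟨-, h2, h3, h4⟩ := hR κ J n N Γ S r₁ r₂ M R₀ r ε hN hM hε.pos
  obtain ⟨hc, ha⟩ := hN.inj c a (N.cls j) (if bo i then N.rb j else N.ra j) hs
  subst hc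
  subst ha
  funext l u
  set z := x - N.sp j (bo i) with hz
  have hx : x = N.sp j (bo i) + z := by rw [hz]; ring
  have hnz : r / 2 < ‖z‖ := lt_of_lt_of_le ht.2.1 (tt_le (hN.d_ne j) z)
  have hnr : ‖z‖ < r := hd
  rw [h2, ← hz]
  by_cases hcase : |hh (N.d j) z| ≤ ε
  · rw [hx]
    exact (h3 j (bo i) z l u (norm_div_ge hε _ z hnz) (by linarith [ht.2.1, hr.pos]) hcase).symm
  · rw [wrow_out hW hN hr hε j (bo i) z ht (not_le.1 hcase)]
    have hoff : ∀ j', N.cls j' = N.cls j → (N.ra j' = (if bo i then N.rb j else N.ra j) ∨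
        N.rb j' = (if bo i then N.rb j else N.ra j)) →
        ¬ (0 < tt (N.d j') z ∧ |hh (N.d j') z| ≤ ε) := by
      rintro j' hj' hja ⟨t1, t2⟩
      obtain ⟨b', hb'⟩ : ∃ b' : Bool, N.sp j (bo i) = N.sp j' b' := by
        rcases hja with h | h
        · exact ⟨false, by unfold Nw.sp; rw [hj']; simp [h]⟩
        · exact ⟨true, by unfold Nw.sp; rw [hj']; simp [h]⟩
      obtain ⟨e1, -⟩ := hε.ang j (bo i) j' b' z hb' ht.2.1 ht.1 t1 t2
      rw [e1] at t2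
      exact hcase t2
    have h5 := h4 (N.cls j) (if bo i then N.rb j else N.ra j) z l u (norm_div_ge hε _ z hnz) hoff
    have h6 := nu_eq hr hε hnu (N.cls j) (if bo i then N.rb j else N.ra j) z
      (by linarith [hr.pos]) (by
      intro h0
      rw [h0, norm_zero] at hnz
      linarith [hr.pos]) hN hoff
    have h7 : N.pos (N.cls j) (if bo i then N.rb j else N.ra j) = N.sp j (bo i) := rfl
    rw [h7] at h5 h6
    rw [hx, ← h6]
    exact h5.symm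

/-- the charts -/
def chs (N : Nw κ J n) (S : Finset ℤ) (M : κ → ℂ → ℤ → Matrix (Fin n) (Fin n) ℝ) (r ε : ℝ) :
    κ ⊕ J ⊕ {m // m ∈ S} → Chart
  | .inl c => disc N M r ε c
  | .inr (.inl j) => tube N r ε j
  | .inr (.inr m) => pur N r ε m.1

theorem bo_surj (b : Bool) : ∃ i : Fin 2, bo i = b := by
  cases b
  · exact ⟨0, rfl⟩
  · exact ⟨1, rfl⟩

theorem bo_inj {i i' : Fin 2} (h : bo i = bo i') : i = i' := by
  revert h
  fin_cases i <;> fin_cases i' <;> simp [bo]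

/-- tube and disc, general -/
theorem agree_td' (hW : StWRW) (hR : StROW) (hN : NwOK N S r₁ r₂)
    (hM : ∀ c, VxM N Γ S c (M c) (R₀ c)) (hr : RadOK N r₁ r₂ r) (hε : EpsOK N R₀ r ε)
    (hnu : ∀ c a z (s : ℝ), 0 < s → N.nu c a ((s : ℂ) * z) = N.nu c a z)
    (j : J) (i : Fin 2) (c : κ) (a : Fin n) (x : ℂ) (ht : x - N.sp j (bo i) ∈ tubO N r ε j)
    (hd : ‖x - N.pos c a‖ < r) :
    (tube N r ε j).row i x = (disc N M r ε c).row a x := by
  obtain ⟨y, hy, hyx⟩ := foot_mem hN j (bo i) (x - N.sp j (bo i))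
    (by linarith [ht.2.1, hr.pos]) (by linarith [ht.2.2, hr.pos])
  have hlt : ‖y - N.pos c a‖ < 2 * r := by
    have h1 : y - N.pos c a = (x - N.pos c a) - (N.sp j (bo i) + (x - N.sp j (bo i)) - y) := by
      ring
    have h2 := norm_sub_le (x - N.pos c a) (N.sp j (bo i) + (x - N.sp j (bo i)) - y)
    rw [hyx] at h2
    rw [h1]
    linarith [ht.1, hε.lt, hr.pos]
  rcases hr.far j (bo i) c a y hy hlt with h | h
  · exact agree_td hW hR hN hM hr hε hnu j i c a x ht hd h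
  · have h1 : N.sp (N.op j) (bo i) = N.pos c a := by rw [hN.opsp j (bo i), h]
    rw [tube_op hW hR hN hM hε.pos j i x]
    refine agree_td hW hR hN hM hr hε hnu (N.op j) i c a x ?_ hd h1.symm
    rw [hN.opsp j (bo i), ← sub_sub]
    unfold tubO
    rw [Set.mem_ofPred_eq, hN.opd j, hh_neg, tt_neg, hh_sub _ _ (N.d j), tt_sub _ _ (N.d j), hh_self,
      tt_self, sub_zero, abs_neg, norm_neg]
    exact ⟨ht.1, by linarith [ht.2.2], by linarith [ht.2.1]⟩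

theorem agree_all (hW : StWRW) (hR : StROW) (hN : NwOK N S r₁ r₂)
    (hM : ∀ c, VxM N Γ S c (M c) (R₀ c)) (hr : RadOK N r₁ r₂ r) (hε : EpsOK N R₀ r ε)
    (hnu : ∀ c a z (s : ℝ), 0 < s → N.nu c a ((s : ℂ) * z) = N.nu c a z)
    (x : ℂ) (i : κ ⊕ J ⊕ {m // m ∈ S}) (a : Fin (chs N S M r ε i).n)
    (i' : κ ⊕ J ⊕ {m // m ∈ S}) (a' : Fin (chs N S M r ε i').n)
    (h : x - (chs N S M r ε i).w a ∈ (chs N S M r ε i).O)
    (h' : x - (chs N S M r ε i').w a' ∈ (chs N S M r ε i').O) :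
    (chs N S M r ε i).row a x = (chs N S M r ε i').row a' x := by
  rcases i with c | j | m <;> rcases i' with c' | j' | m'
  · have h1 : ‖x - N.pos c a‖ < r := mem_ball_zero_iff.1 h
    have h2 : ‖x - N.pos c' a'‖ < r := mem_ball_zero_iff.1 h'
    have h3 : ‖N.pos c a - N.pos c' a'‖ < 4 * r := by
      have h4 : N.pos c a - N.pos c' a' = (x - N.pos c' a') - (x - N.pos c a) := by ring
      rw [h4]
      have := norm_sub_le (x - N.pos c' a') (x - N.pos c a)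
      linarith [hr.pos]
    obtain ⟨e1, e2⟩ := hr.sep c a c' a' h3
    subst e1
    subst e2
    rfl
  · exact (agree_td' hW hR hN hM hr hε hnu j' a' c a x h' (mem_ball_zero_iff.1 h)).symm
  · exact (agree_pd hR hN hM hr hε hnu m'.1 c a a' x h' (mem_ball_zero_iff.1 h)).symm
  · exact agree_td' hW hR hN hM hr hε hnu j a c' a' x h (mem_ball_zero_iff.1 h')
  · have g : x - N.sp j (bo a) ∈ tubO N r ε j := h
    have g' : x - N.sp j' (bo a') ∈ tubO N r ε j' := h'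
    obtain ⟨e1, e2⟩ := hε.dis j (bo a) j' (bo a') (x - N.sp j (bo a)) (x - N.sp j' (bo a'))
      g.2.1.le g.2.2.le g.1 g'.2.1.le g'.2.2.le g'.1 (by ring)
    have e3 := bo_inj e1
    rcases e2 with e2 | e2
    · subst e2
      subst e3
      rfl
    · subst e2
      subst e3
      exact tube_op hW hR hN hM hε.pos j _ x
  · exact (agree_pt hW hR hN hM hr hε m'.1 j a a' x h' h).symm
  · exact agree_pd hR hN hM hr hε hnu m.1 c' a' a x h (mem_ball_zero_iff.1 h')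
  · exact agree_pt hW hR hN hM hr hε m.1 j' a' a x h h'
  · obtain ⟨h1, -, -, -⟩ := hR κ J n N Γ S r₁ r₂ M R₀ r ε hN hM hε.pos
    funext l u
    have g : N.lam (x - 0) = m.1 := h.1
    have g' : N.lam (x - 0) = m'.1 := h'.1
    refine (h1 m.1 a x l u).trans (Eq.trans ?_ (h1 m'.1 a' x l u).symm)
    rw [← g, ← g']

theorem cover_all (hN : NwOK N S r₁ r₂) (hr : RadOK N r₁ r₂ r) (hε : EpsOK N R₀ r ε) (x : ℂ) :
    ∃ (i : κ ⊕ J ⊕ {m // m ∈ S}) (a : Fin (chs N S M r ε i).n),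
      x - (chs N S M r ε i).w a ∈ (chs N S M r ε i).O := by
  by_cases h1 : ∃ c a, ‖x - N.pos c a‖ < r
  · obtain ⟨c, a, h⟩ := h1
    exact ⟨.inl c, a, mem_ball_zero_iff.2 h⟩
  by_cases h2 : ∃ j i, x - N.sp j (bo i) ∈ tubO N r ε j
  · obtain ⟨j, i, h⟩ := h2
    exact ⟨.inr (.inl j), i, h⟩
  refine ⟨.inr (.inr ⟨N.lam x, hN.labS x⟩), (0 : Fin 1), ?_⟩
  show N.lam (x - 0) = N.lam x ∧ x - 0 ∉ Bad N r ε
  rw [sub_zero]
  refine ⟨rfl, ?_⟩
  rintro (⟨c, a, h⟩ | ⟨j, b, g1, g2, g3⟩)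
  · exact h1 ⟨c, a, by linarith [hr.pos]⟩
  · have hd := hN.d_ne j
    by_cases g4 : tt (N.d j) (x - N.sp j b) ≤ r / 2
    · apply h1
      refine ⟨N.cls j, if b then N.rb j else N.ra j, ?_⟩
      have g5 := norm_le_add hd (x - N.sp j b)
      rw [abs_of_nonneg g2] at g5
      have g6 : N.pos (N.cls j) (if b then N.rb j else N.ra j) = N.sp j b := rfl
      rw [g6]
      linarith [hε.lt, hε.pos]
    by_cases g5 : ‖N.d j‖ - r / 2 ≤ tt (N.d j) (x - N.sp j b)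
    · apply h1
      refine ⟨N.cls (N.op j), if b then N.rb (N.op j) else N.ra (N.op j), ?_⟩
      have g6 : N.pos (N.cls (N.op j)) (if b then N.rb (N.op j) else N.ra (N.op j)) =
          N.sp (N.op j) b := rfl
      rw [g6, hN.opsp j b, ← sub_sub]
      have g7 := norm_le_add hd (x - N.sp j b - N.d j)
      rw [tt_sub _ _ (N.d j), hh_sub _ _ (N.d j), tt_self, hh_self, sub_zero] at g7
      rw [abs_of_nonpos (by linarith : tt (N.d j) (x - N.sp j b) - ‖N.d j‖ ≤ 0)] at g7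
      linarith [hε.lt, hε.pos]
    · obtain ⟨i, hi⟩ := bo_surj b
      apply h2
      refine ⟨j, i, ?_⟩
      rw [hi]
      exact ⟨by linarith [hε.pos], not_le.1 g4, not_le.1 g5⟩

/-- far from the network only pure charts -/
theorem only_pure (hN : NwOK N S r₁ r₂) (hr : RadOK N r₁ r₂ r) (hε : EpsOK N R₀ r ε) (x : ℂ)
    (h : ‖x‖ < r₁ ∨ r₂ < ‖x‖) : x ∉ Bad N r ε := by
  rintro (⟨c, a, g⟩ | ⟨j, b, g1, g2, g3⟩)
  · obtain ⟨m1, m2⟩ := hr.mv c a
    have e1 := norm_sub_norm_le x (N.pos c a)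
    have e2 := norm_sub_norm_le (N.pos c a) x
    rw [norm_sub_rev] at e2
    rcases h with h | h
    · linarith [hr.pos]
    · linarith [hr.pos]
  · obtain ⟨y, hy, hyx⟩ := foot_mem hN j b (x - N.sp j b) g2 g3
    rw [add_sub_cancel] at hyx
    obtain ⟨m1, m2⟩ := hr.mw j b y hy
    have e1 := norm_sub_norm_le x y
    have e2 := norm_sub_norm_le y x
    rw [norm_sub_rev] at e2
    rw [hyx] at e1 e2
    rcases h with h | h
    · linarith [hr.pos, hε.lt, hε.pos]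
    · linarith [hr.pos, hε.lt, hε.pos]

end

/-- **The network theorem** from the modules. -/
theorem hNET_of (hG : StGLUE) (hRD1 : StRD1) (hRD2 : StRD2) (hLAB : StLAB) (hDIS : StDIS)
    (hANG : StANG) (hCHD : StCHD) (hCHT : StCHT) (hCHP : StCHP) (hR : StROW) (hW : StWRW) :
    StNET := by
  intro κ J _ _ n N Γ S r₁ r₂ M R₀ hN hM hΓ hnu
  obtain ⟨r, hr⟩ := exists_rad hRD1 hRD2 κ J n N S r₁ r₂ hN
  obtain ⟨ε, hε⟩ := exists_eps hLAB hDIS hANG κ J n N S r₁ r₂ r R₀ hN hr.pos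
  obtain ⟨R, Λ, hK, hrow⟩ := hG Γ S (κ ⊕ J ⊕ {m // m ∈ S}) (chs N S M r ε)
    (by
      rintro (c | j | m)
      · exact hCHD κ J n N Γ S r₁ r₂ M R₀ r ε hN hM c
      · exact hCHT κ J n N Γ S r₁ r₂ M R₀ r ε hN hM hΓ j
      · exact hCHP κ J n N Γ S r₁ r₂ r ε hN hε.pos.le hΓ m.1 m.2)
    (fun x => cover_all hN hr hε x)
    (fun x i a i' a' h h' => agree_all hW hR hN hM hr hε hnu x i a i' a' h h')
  have hpure : ∀ x, (‖x‖ < r₁ ∨ r₂ < ‖x‖) → ∀ m u, R m x u = prow (N.lam x) m u := by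
    intro x hx m u
    have hb := only_pure hN hr hε x hx
    have h1 := hrow x (.inr (.inr ⟨N.lam x, hN.labS x⟩)) (0 : Fin 1) (by
      show N.lam (x - 0) = N.lam x ∧ x - 0 ∉ Bad N r ε
      rw [sub_zero]
      exact ⟨rfl, hb⟩) m u
    rw [h1]
    exact (hR κ J n N Γ S r₁ r₂ M R₀ r ε hN hM hε.pos).1 (N.lam x) (0 : Fin 1) x m u
  refine ⟨R, Λ, hK, ?_, ?_⟩
  · intro x hx m u
    rw [hpure x (Or.inl hx), hN.inn x hx]
    rfl
  · intro x hx m u
    rw [hpure x (Or.inr hx), hN.out x hx]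
    rfl

end Pool.Agent.Helper38.UN
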