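import Pool.Agent.Helper38.UN.Basic

/-!
# Project UN (MP_d629b1_an), parts A and B: module statements

Every module proves `theorem hX : StX` (from the listed hypotheses).  COMPLETE proofs in the docstrings.
Elementary facts about `hh`, `tt`, `prof`: `Pool/Agent/Helper38/UN/Basic.lean` (proved, use them).
All modules are independent.
-/

set_option autoImplicit false

open Set Filter Topology Matrix
open scoped ContDiff ComplexConjugate

noncomputable section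

namespace Pool.Agent.Helper38.UN

open Pool.Agent.Helper71.UN
open Pool.Agent.Helper54.TRI (PatC)

/-! ## (A) Assembly -/

/-- **ASM** proves `theorem hASM : Pool.Agent.Helper71.UN.StASM`.  PROOF.  Define
`K x v = (∑ m ∈ S, R m (β^m * x) (β^m * v)) - if v = 0 then 1 else 0` (`β ^ m` with `m : ℤ`).
KEY: for `x ≠ 0` let `j = j x : ℤ` be the unique integer with `r₁ ≤ ‖β^j x‖` and `‖β^(j-1) x‖ < r₁` (exists and is unique because
`‖β^m x‖ = ‖β‖^m ‖x‖` is strictly increasing in `m`, tends to `0` and to `∞`; e.g. `exists_mem_Ioc_zpow`, or define `j` by `Int.floor` of a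
logarithm).  CLAIM: `K x v = R j (β^j x) (β^j v)` for all `v` (if `j ∉ S` this is `0` by `labs`).  Indeed for `m < j` the point `β^m x` has norm `< r₁` and
`R m (β^m x) (β^m v) = [m = 0 and v = 0]` (`inner`; `β^m v = 0` iff `v = 0`), and for `m > j` its norm is `≥ ‖β‖ r₁ > r₂`, so
`R m (β^m x) (β^m v) = [m = 1 and v = 0]` (`outer`).  So `K x v = [v=0] ([0 < j] + [1 > j] - 1) + R j (β^j x) (β^j v)` (with `0, 1 ∈ S`), and `[0 < j] + [1 > j] = 1`
for every integer `j`.  For `x = 0`: `K 0 v = [v=0] - [v=0] = 0` (`inner` at `0`).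
SHIFT: let `x ≠ 0`, `K x v ≠ 0`, `v ≠ 0`, `y = β^j x`, `u = β^j v ≠ 0`.  Then `R j y u ≠ 0`, so `‖y‖ ≤ r₂` (otherwise `outer` gives `u = 0`), and
`R j (y + u) (-u) ≠ 0` (`symm`), `-u ≠ 0`, so `r₁ ≤ ‖y+u‖ ≤ r₂` (`inner`, `outer`); hence `x + v ≠ 0`, `j (x + v) = j` (`‖β^(j-1) (x+v)‖ ≤ r₂/‖β‖ < r₁`), and
`K (x+v) w = R j (y+u) (β^j w)` for all `w`.
PatC: take `Λ'` = the values `v` in the finite set `⋃_{m ∈ S} β^(-m) Λ` with `∃ x, K x v ≠ 0` (classical filter).  smooth: finite sum of smooth functions composed with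
`x ↦ β^m x`.  supp: `K x v ≠ 0` gives `x ≠ 0` and `R j (β^j x) (β^j v) ≠ 0`, `j ∈ S` (`labs`), `β^j v ∈ Λ`.  lat: then `Γ j (β^j v)`, so `Γ (j + (-j)) (β^(-j) β^j v) = Γ 0 v`.  near / far: choose `ε > 0`
with `‖β^m x‖ < r₁` for all `m ∈ S`, `‖x‖ ≤ ε`: then `K x v = [v=0] (number of m in S with m = 0) - [v=0] = 0`; similarly `R'` with
`r₂ < ‖β^m x‖`.  symm: `v = 0` trivial; if `K x v ≠ 0`: SHIFT with `w = -v` and `symm`; if `K x v = 0` but `K (x+v) (-v) ≠ 0` apply the first case at `(x+v, -v)`.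
idem: `x = 0`: both sides `0`.  Otherwise `K x u * K (x+u) (v-u) = R j y (β^j u) * R j (y + β^j u) (β^j v - β^j u)` for all `u` (`u = 0` trivial, else SHIFT or both sides `0`);
reindex the sum over `Λ'` by `u ↦ β^j u` (injective; both sums are the `finsum` over the support, `supp`) and use `idem`.
tele: `j (β^(-i) x) = j x + i`, so `K (β^(-i) x) (β^(-i) v) = R (j+i) (β^j x) (β^j v)`; the `finsum` over `i` is (shift of the index, `labs`) `∑ m ∈ S, R m (β^j x) (β^j v) = [β^j v = 0]`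
(`sum`).  Compare `Pool/Agent/Helper54/TRI/M_ATL.lean` (same kind of proof). -/
def StASM' : Prop := Pool.Agent.Helper71.UN.StASM

/-! ## (B) Charts -/

/-- A chart: `n` translates of the set `O`, and matrices on `O`. -/
structure Chart where
  n : ℕ
  O : Set ℂ
  w : Fin n → ℂ
  M : ℤ → ℂ → Matrix (Fin n) (Fin n) ℝ

/-- The properties of a chart. -/
structure ChartOK (Γ : ℤ → ℂ → Prop) (S : Finset ℤ) (C : Chart) : Prop where
  opn : IsOpen C.O
  inj : Function.Injective C.w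
  smooth : ∀ l a b, ∀ z ∈ C.O, ContDiffAt ℝ ∞ (fun z => C.M l z a b) z
  symm : ∀ l, ∀ z ∈ C.O, (C.M l z)ᵀ = C.M l z
  idem : ∀ l, ∀ z ∈ C.O, C.M l z * C.M l z = C.M l z
  zero : ∀ l, l ∉ S → ∀ z ∈ C.O, C.M l z = 0
  sum : ∀ z ∈ C.O, ∑ l ∈ S, C.M l z = 1
  loc : ∀ l, ∀ z ∈ C.O, ∀ a b, C.M l z a b ≠ 0 → Γ l (C.w b - C.w a)

open Classical in
/-- Row of the copy `a` at the point `x` (label `l`, shift `u`). -/
def Chart.row (C : Chart) (a : Fin C.n) (x : ℂ) (l : ℤ) (u : ℂ) : ℝ :=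
  ∑ b, if u = C.w b - C.w a then C.M l (x - C.w a) a b else 0

/-- **GLUE** (gluing of charts).  PROOF (compare `Pool/Agent/Helper54/TRI/M_ATL.lean`, the same but simpler).  For every `x` choose `(i, a)` with
`x - w_i a ∈ O_i` (`cover`) and let `R l x u` be the value at `(l, u)` of the row of the chosen copy; by `agree` it is the value of the row of ANY copy which contains `x`.
smooth: `x₀` in the copy `(i,a)`; the copy is open, so `R l x u = row (C i) a x l u` near `x₀`, a finite sum of terms which are constant `0` or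
`x ↦ M l (x - w a) a b`, smooth at `x₀`.  supp: `Λ` = all differences `w_i b - w_i a` (image of a finite type).  labs: `zero`.  lat: `loc`.
TRANSLATION: if `x` is in the copy `(i,a)` and `u = w b - w a` then `x + u - w b = x - w a ∈ O`, so `R l (x+u) v = ∑_d [v = w d - w b] M l (x - w a) b d`.
symm: if `R l x u ≠ 0` then `u = w b - w a` for a unique `b` (`inj`) and `R l x u = M a b`, `R l (x+u) (-u) = M b a = M a b`; if `R l x u = 0` but `R l (x+u) (-u) ≠ 0`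
apply this at `(x+u, -u)`.  idem: the terms with `R l x u ≠ 0` are `u = w b - w a`, so the sum over `Λ` is `∑_b M a b * ∑_d [v - u_b = w d - w b] M b d = ∑_d [v = w d - w a] (M * M) a d`.
sum: `∑_l R l x v = ∑_b [v = w b - w a] (∑_l M l) a b = [v = 0]` (`sum`, `inj`). -/
def StGLUE : Prop := ∀ (Γ : ℤ → ℂ → Prop) (S : Finset ℤ) (ι : Type) [Fintype ι] (C : ι → Chart),
  (∀ i, ChartOK Γ S (C i)) → (∀ x, ∃ i a, x - (C i).w a ∈ (C i).O) →
  (∀ x i a i' a', x - (C i).w a ∈ (C i).O → x - (C i').w a' ∈ (C i').O →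
    (C i).row a x = (C i').row a' x) →
  ∃ R Λ, KerOK Γ S R Λ ∧
    ∀ x i a, x - (C i).w a ∈ (C i).O → ∀ m u, R m x u = (C i).row a x m u

/-! ## Constants -/

section

variable {κ J : Type} {n : ℕ}

/-- The closed wall. -/
def cw (N : Nw κ J n) (j : J) (b : Bool) : Set ℂ := segment ℝ (N.sp j b) (N.sp j b + N.d j)

/-- Radius of the discs. -/
structure RadOK (N : Nw κ J n) (r₁ r₂ r : ℝ) : Prop where
  pos : 0 < r
  sep : ∀ c a c' a', ‖N.pos c a - N.pos c' a'‖ < 4 * r → c = c' ∧ a = a'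
  vert : ∀ c a z, ‖z‖ < 2 * r → (∀ j, N.cls j = c → (N.ra j = a ∨ N.rb j = a) →
    ¬ (hh (N.d j) z = 0 ∧ 0 ≤ tt (N.d j) z)) → N.lam (N.pos c a + z) = N.nu c a z
  far : ∀ j b c a, ∀ y ∈ cw N j b, ‖y - N.pos c a‖ < 2 * r →
    N.pos c a = N.sp j b ∨ N.pos c a = N.sp j b + N.d j
  len : ∀ j, 4 * r ≤ ‖N.d j‖
  mv : ∀ c a, r₁ + 2 * r < ‖N.pos c a‖ ∧ ‖N.pos c a‖ + 2 * r < r₂
  mw : ∀ j b, ∀ y ∈ cw N j b, r₁ + 2 * r < ‖y‖ ∧ ‖y‖ + 2 * r < r₂

/-- Half width of the walls. -/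
structure EpsOK (N : Nw κ J n) (R₀ : κ → ℝ) (r ε : ℝ) : Prop where
  pos : 0 < ε
  r0 : ∀ c, R₀ c * ε < r / 2
  lt : 4 * ε < r
  lab : ∀ j b z, r / 2 ≤ tt (N.d j) z → tt (N.d j) z ≤ ‖N.d j‖ - r / 2 → |hh (N.d j) z| < 2 * ε →
    (0 < hh (N.d j) z → N.lam (N.sp j b + z) = N.ll j b) ∧
    (hh (N.d j) z < 0 → N.lam (N.sp j b + z) = N.rl j b)
  dis : ∀ j b j' b' z z', r / 2 ≤ tt (N.d j) z → tt (N.d j) z ≤ ‖N.d j‖ - r / 2 →
    |hh (N.d j) z| < 2 * ε → r / 2 ≤ tt (N.d j') z' → tt (N.d j') z' ≤ ‖N.d j'‖ - r / 2 →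
    |hh (N.d j') z'| < 2 * ε → N.sp j b + z = N.sp j' b' + z' → b' = b ∧ (j' = j ∨ j' = N.op j)
  ang : ∀ j b j' b' z, N.sp j b = N.sp j' b' → r / 2 < tt (N.d j) z → |hh (N.d j) z| < 2 * ε →
    0 < tt (N.d j') z → |hh (N.d j') z| ≤ ε → j' = j ∧ b' = b

end

/-- **RD1** (radius, first part).  PROOF.  Finite products and conjunctions: `Filter.eventually_all`, `Filter.Eventually.and`; each condition holds for all sufficiently small `r > 0`.
sep: for `(c,a) ≠ (c',a')` the norm is positive (`inj`), `4 r ≤` it eventually.  vert: `NwOK.vert c a` gives `δ > 0` such that the implication holds for `‖z‖ < δ`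
(`Metric.eventually_nhds_iff`); `2 r ≤ δ` eventually.  len: `d_ne`.  mv: `verts`. -/
def StRD1 : Prop := ∀ (κ J : Type) [Fintype κ] [Fintype J] (n : ℕ) (N : Nw κ J n) (S : Finset ℤ)
  (r₁ r₂ : ℝ), NwOK N S r₁ r₂ → ∀ᶠ r in 𝓝[>] (0 : ℝ),
  (∀ c a c' a', ‖N.pos c a - N.pos c' a'‖ < 4 * r → c = c' ∧ a = a') ∧
  (∀ c a z, ‖z‖ < 2 * r → (∀ j, N.cls j = c → (N.ra j = a ∨ N.rb j = a) →
    ¬ (hh (N.d j) z = 0 ∧ 0 ≤ tt (N.d j) z)) → N.lam (N.pos c a + z) = N.nu c a z) ∧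
  (∀ j, 4 * r ≤ ‖N.d j‖) ∧
  (∀ c a, r₁ + 2 * r < ‖N.pos c a‖ ∧ ‖N.pos c a‖ + 2 * r < r₂)

/-- **RD2** (radius, second part).  PROOF.  Finite conjunctions as in `StRD1`.  far: if `pos c a` is not an end of the wall then it is not in the closed wall `cw N j b`, a compact set
(`segment_eq_image'`: points `sp + t d`, `0 ≤ t ≤ 1`; `t = 0`, `t = 1` are the ends, and `0 < t < 1` is excluded by `avoid`), so `Metric.infDist (pos c a) (cw N j b) > 0`, or: the continuous positive function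
`y ↦ ‖y - pos c a‖` has a positive minimum on the compact set; `2 r ≤` it eventually.  mw: the continuous function `‖·‖` has a minimum `> r₁` and a maximum `< r₂` on the compact nonempty set
`cw N j b` (`walls`). -/
def StRD2 : Prop := ∀ (κ J : Type) [Fintype κ] [Fintype J] (n : ℕ) (N : Nw κ J n) (S : Finset ℤ)
  (r₁ r₂ : ℝ), NwOK N S r₁ r₂ → ∀ᶠ r in 𝓝[>] (0 : ℝ),
  (∀ j b c a, ∀ y ∈ cw N j b, ‖y - N.pos c a‖ < 2 * r →
    N.pos c a = N.sp j b ∨ N.pos c a = N.sp j b + N.d j) ∧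
  (∀ j b, ∀ y ∈ cw N j b, r₁ + 2 * r < ‖y‖ ∧ ‖y‖ + 2 * r < r₂)

/-- **LAB** (labels in the tubes).  PROOF.  Finitely many `(j,b)` (`Filter.eventually_all`).  Let `K = {sp + t d : r/(2‖d‖) ≤ t ≤ 1 - r/(2‖d‖)}` (compact, image of `Icc`), in the open wall (`0 < t < 1` because `r > 0`).  By the field `wall` the set
`U = {x | (0 < hh d (x - sp) → lam x = ll) ∧ (hh d (x - sp) < 0 → lam x = rl)}` is a neighbourhood of every point of `K`, so `K ⊆ interior U` and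
`IsCompact.exists_thickening_subset_open` gives `δ > 0` with `Metric.thickening δ K ⊆ interior U ⊆ U`.  For `2 ε ≤ δ` and `z` as in the statement the foot point `sp + (tt d z/‖d‖) d` is in `K` and has the distance
`|hh d z| < 2 ε` from `sp + z` (`norm_sub_foot`), so `sp + z ∈ U`. -/
def StLAB : Prop := ∀ (κ J : Type) [Fintype κ] [Fintype J] (n : ℕ) (N : Nw κ J n) (S : Finset ℤ)
  (r₁ r₂ r : ℝ), NwOK N S r₁ r₂ → 0 < r → ∀ᶠ ε in 𝓝[>] (0 : ℝ),
  ∀ j b z, r / 2 ≤ tt (N.d j) z → tt (N.d j) z ≤ ‖N.d j‖ - r / 2 → |hh (N.d j) z| < 2 * ε →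
    (0 < hh (N.d j) z → N.lam (N.sp j b + z) = N.ll j b) ∧
    (hh (N.d j) z < 0 → N.lam (N.sp j b + z) = N.rl j b)

/-- **DIS** (the middle tubes are disjoint).  PROOF.  Finitely many `(j,b,j',b')`.  Suppose `¬ (b' = b ∧ (j' = j ∨ j' = op j))`.  Let `K`, `K'` be the middle parts `{sp + t d : r/(2‖d‖) ≤ t ≤ 1 - r/(2‖d‖)}` (compact; possibly empty) of
the two walls; they are disjoint by the field `disj`, so there is `δ > 0` with `δ ≤ ‖y - y'‖` for `y ∈ K`, `y' ∈ K'` (`IsCompact.exists_infDist_eq_dist`,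
`Disjoint.exists_thickenings`, or the minimum of a continuous function on `K ×ˢ K'`).  For `4 ε ≤ δ` there are no `z`, `z'` as in the statement: the foot points
`sp + (tt d z/‖d‖) d`, `sp' + (tt d' z'/‖d'‖) d'` are in `K`, `K'` and have distances `< 2 ε` from the common point (`norm_sub_foot`). -/
def StDIS : Prop := ∀ (κ J : Type) [Fintype κ] [Fintype J] (n : ℕ) (N : Nw κ J n) (S : Finset ℤ)
  (r₁ r₂ r : ℝ), NwOK N S r₁ r₂ → 0 < r → ∀ᶠ ε in 𝓝[>] (0 : ℝ),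
  ∀ j b j' b' z z', r / 2 ≤ tt (N.d j) z → tt (N.d j) z ≤ ‖N.d j‖ - r / 2 →
    |hh (N.d j) z| < 2 * ε → r / 2 ≤ tt (N.d j') z' → tt (N.d j') z' ≤ ‖N.d j'‖ - r / 2 →
    |hh (N.d j') z'| < 2 * ε → N.sp j b + z = N.sp j' b' + z' → b' = b ∧ (j' = j ∨ j' = N.op j)

/-- **ANG** (different rays of a vertex).  PROOF.  Finitely many `(j,b,j',b')` with `sp j b = sp j' b'` and `¬ (j' = j ∧ b' = b)`.  Let `e = d j/‖d j‖`, `e' = d j'/‖d j'‖`.  CLAIM `e ≠ e'`: otherwise for small `s > 0` the point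
`sp j b + s e` is in both open walls (parameters `s/‖d j‖`, `s/‖d j'‖` in `(0,1)`), so by `disj` `b' = b` and `j' = j` or `j' = op j`; the first is excluded, and in the second case
`sp (op j) b = sp j b + d j` (`opsp`) and `sp j b = sp j' b'` give `d j = 0`, a contradiction to `d_ne`.  Now let `z` be as in the statement.  `‖z - tt z e‖ = |hh z| < 2ε` (`norm_sub_foot`), `‖z - tt' z e'‖ = |hh' z| ≤ ε`,
and, because `tt, tt' > 0`, `|‖z‖ - tt z| ≤ |hh z| < 2ε` and `|‖z‖ - tt' z| ≤ ε` (`tt_le`, `norm_le_add`).  So `‖z‖ ‖e - e'‖ ≤ 2ε + 2ε + ε + ε = 6ε` and `‖z‖ ≥ tt z > r/2`: `‖e - e'‖ < 12 ε/r`, which is false for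
small `ε`. -/
def StANG : Prop := ∀ (κ J : Type) [Fintype κ] [Fintype J] (n : ℕ) (N : Nw κ J n) (S : Finset ℤ)
  (r₁ r₂ r : ℝ), NwOK N S r₁ r₂ → 0 < r → ∀ᶠ ε in 𝓝[>] (0 : ℝ),
  ∀ j b j' b' z, N.sp j b = N.sp j' b' → r / 2 < tt (N.d j) z → |hh (N.d j) z| < 2 * ε →
    0 < tt (N.d j') z → |hh (N.d j') z| ≤ ε → j' = j ∧ b' = b

/-! ## The charts -/

/-- `0 ↦ false`, `1 ↦ true`. -/
def bo (i : Fin 2) : Bool := decide (i = 1)

section

variable {κ J : Type} {n : ℕ}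

/-- The disc of the class `c`. -/
def disc (N : Nw κ J n) (M : κ → ℂ → ℤ → Matrix (Fin n) (Fin n) ℝ) (r ε : ℝ) (c : κ) : Chart :=
  ⟨n, Metric.ball 0 r, N.pos c, fun l z => M c (z / (ε : ℂ)) l⟩

/-- The angle in a tube. -/
def ang (N : Nw κ J n) (ε : ℝ) (j : J) (z : ℂ) : ℝ := Real.pi / 2 * prof (hh (N.d j) z / ε)

/-- The open tube. -/
def tubO (N : Nw κ J n) (r ε : ℝ) (j : J) : Set ℂ :=
  {z | |hh (N.d j) z| < 2 * ε ∧ r / 2 < tt (N.d j) z ∧ tt (N.d j) z < ‖N.d j‖ - r / 2}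

/-- The tube of the ray `j`. -/
def tube (N : Nw κ J n) (r ε : ℝ) (j : J) : Chart :=
  ⟨2, tubO N r ε j, fun i => N.sp j (bo i),
    fun l z => Matrix.of fun i i' => wm (N.lp j) (N.lq j) (N.e j) (ang N ε j z) l (bo i) (bo i')⟩

/-- The closed set which is removed from the pure charts. -/
def Bad (N : Nw κ J n) (r ε : ℝ) : Set ℂ :=
  {x | (∃ c a, ‖x - N.pos c a‖ ≤ r / 2) ∨ ∃ j b, |hh (N.d j) (x - N.sp j b)| ≤ ε ∧
    0 ≤ tt (N.d j) (x - N.sp j b) ∧ tt (N.d j) (x - N.sp j b) ≤ ‖N.d j‖}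

/-- The pure chart with the label `m`. -/
def pur (N : Nw κ J n) (r ε : ℝ) (m : ℤ) : Chart :=
  ⟨1, {x | N.lam x = m ∧ x ∉ Bad N r ε}, fun _ => 0,
    fun l _ => Matrix.of fun _ _ => if l = m then 1 else 0⟩

/-- Row of a pure point. -/
def prow (m l : ℤ) (u : ℂ) : ℝ := if l = m ∧ u = 0 then 1 else 0

open Classical in
/-- Row in a tube (`x`: the copy, `v`: shift to the other copy). -/
def wrow (p q : ℤ) (e θ : ℝ) (x : Bool) (v : ℂ) (l : ℤ) (u : ℂ) : ℝ :=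
  if u = 0 then wm p q e θ l x x else if u = v then wm p q e θ l x (!x) else 0

end

/-- **CHD** (discs are charts; hypotheses: none).  PROOF.  opn: ball.  inj: `NwOK.inj`.  smooth: `VxM.smooth` composed with `z ↦ z / ε`.  The rest: fields of `VxM` (`loc`: `Γ l (pos c b - pos c a)`). -/
def StCHD : Prop := ∀ (κ J : Type) [Fintype κ] [Fintype J] (n : ℕ) (N : Nw κ J n)
  (Γ : ℤ → ℂ → Prop) (S : Finset ℤ) (r₁ r₂ : ℝ) (M : κ → ℂ → ℤ → Matrix (Fin n) (Fin n) ℝ)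
  (R₀ : κ → ℝ) (r ε : ℝ), NwOK N S r₁ r₂ → (∀ c, VxM N Γ S c (M c) (R₀ c)) →
  ∀ c, ChartOK Γ S (disc N M r ε c)

/-- **CHT** (tubes are charts).  PROOF.  opn: `continuous_hh`, `continuous_tt`.  inj: `sp j false ≠ sp j true`, i.e. `pos c (ra j) ≠ pos c (rb j)` (`rab`, `inj`).
smooth: `wm` is a polynomial in `cos`, `sin` of `ang`, and `ang` is smooth in `z` (`contDiff_prof`, `contDiff_hh`); split the ifs.
symm, idem, sum: 2x2 computations (`Fin 2`, `bo 0 = false`, `bo 1 = true`): with `c = cos`, `s = sin`, `e² = 1` (`sgn`), `lp ≠ lq`: for `l = lq` the matrix is `[[c², e c s], [e c s, s²]]`, for `l = lp` it is `[[s², -e c s], [-e c s, c²]]`, otherwise `0`;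
`c² + s² = 1`.  zero, sum need `lp, lq ∈ S`: `NwOK.wall j false (1/2)`: the neighbourhood of `sp + d/2` contains points on both sides (e.g. `sp + d/2 ± δ I d`,
`hh d (± δ I d) = ± δ ‖d‖`), where `lam x = ll j false = lp j`, `= rl j false = lq j`; `labS`.  So `∑ l ∈ S` has exactly the two nonzero terms `l = lp`, `l = lq`.
loc: for `a = b` the shift is `0`: hypothesis `hΓ`.  For `a ≠ b`, `M l z a b ≠ 0` gives `l = lq` or `l = lp`; use the vertex model of `c = cls j` at the point `z₁ = t d j`, `t` real with `t ‖d j‖ ≥ max (R₀ c) 1`: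
`hh = 0`, `tt = t ‖d‖ > 0`, `‖z₁‖ = t ‖d‖ ≥ R₀ c`; `VxM.ray` with `prof 0 = 1/2`: the entry of the rows `ra`, `rb` at the other copy is `wm lp lq e (π/4) l false true` (or `true false`), which is `± e cos (π/4) sin (π/4) ≠ 0` (for the entry `(rb, ra)` the first `if` of
`VxM.ray` is used, for `(ra, rb)` the second one, `rab`); `VxM.loc` gives `Γ l (pos c rb - pos c ra)` and `Γ l (pos c ra - pos c rb)`. -/
def StCHT : Prop := ∀ (κ J : Type) [Fintype κ] [Fintype J] (n : ℕ) (N : Nw κ J n)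
  (Γ : ℤ → ℂ → Prop) (S : Finset ℤ) (r₁ r₂ : ℝ) (M : κ → ℂ → ℤ → Matrix (Fin n) (Fin n) ℝ)
  (R₀ : κ → ℝ) (r ε : ℝ), NwOK N S r₁ r₂ → (∀ c, VxM N Γ S c (M c) (R₀ c)) → (∀ l, Γ l 0) →
  ∀ j, ChartOK Γ S (tube N r ε j)

/-- **CHP** (pure charts).  PROOF.  opn: `Bad` is closed (finite unions of closed sets: `isClosed_iUnion_of_finite`; closed balls, and closed conditions on continuous functions).  Let `lam x = m`, `x ∉ Bad`.  `x` is in no closed wall: for `y = sp + t d`, `0 ≤ t ≤ 1`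
(`segment_eq_image'`), `hh d (y - sp) = 0`, `tt d (y - sp) = t ‖d‖`, so `y ∈ Bad` (`0 ≤ ε`).  The field `off` gives `lam y = lam x = m` near `x`.  inj: `Fin 1` is a subsingleton.  The other fields: the 1x1 matrix `[l = m]`, `m ∈ S`, `Γ l 0`. -/
def StCHP : Prop := ∀ (κ J : Type) [Fintype κ] [Fintype J] (n : ℕ) (N : Nw κ J n)
  (Γ : ℤ → ℂ → Prop) (S : Finset ℤ) (r₁ r₂ : ℝ) (r ε : ℝ), NwOK N S r₁ r₂ → 0 ≤ ε →
  (∀ l, Γ l 0) → ∀ m ∈ S, ChartOK Γ S (pur N r ε m)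

/-- **ROW** (rows of the charts).  PROOF.  (1) `Fin 1`, `0 - 0 = 0`.  (2) `Fin 2`: the terms are `b` with `bo b = bo a`, shift `0`, and the other one with shift `sp j (!bo a) - sp j (bo a)`, which is `≠ 0` (`rab`, `inj`); `fin_cases a`.
(3) By `VxM.ray` at `z / ε` (hypotheses by `hh_div`, `tt_div`) the row of `M` has only the entries `b = ra j`, `b = rb j`; the sum over `b` has the two terms
`b = ra`, `b = rb` (`Finset.sum_eq_add`, or `Fintype.sum_eq_add`), one of them with the shift `0`, the other one with `sp j (!x) - sp j x ≠ 0`; `x = false` or `true`.  (4) `VxM.pure`: only the term `b = a`. -/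
def StROW : Prop := ∀ (κ J : Type) [Fintype κ] [Fintype J] (n : ℕ) (N : Nw κ J n)
  (Γ : ℤ → ℂ → Prop) (S : Finset ℤ) (r₁ r₂ : ℝ) (M : κ → ℂ → ℤ → Matrix (Fin n) (Fin n) ℝ)
  (R₀ : κ → ℝ) (r ε : ℝ), NwOK N S r₁ r₂ → (∀ c, VxM N Γ S c (M c) (R₀ c)) → 0 < ε →
  (∀ (m : ℤ) (a : Fin 1) x l u, (pur N r ε m).row a x l u = prow m l u) ∧
  (∀ j (a : Fin 2) x l u, (tube N r ε j).row a x l u =
    wrow (N.lp j) (N.lq j) (N.e j) (ang N ε j (x - N.sp j (bo a))) (bo a)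
      (N.sp j (!bo a) - N.sp j (bo a)) l u) ∧
  (∀ j (b : Bool) z l u, R₀ (N.cls j) ≤ ‖z / (ε : ℂ)‖ → 0 < tt (N.d j) z → |hh (N.d j) z| ≤ ε →
    (disc N M r ε (N.cls j)).row (if b then N.rb j else N.ra j) (N.sp j b + z) l u =
      wrow (N.lp j) (N.lq j) (N.e j) (ang N ε j z) b (N.sp j (!b) - N.sp j b) l u) ∧
  (∀ c (a : Fin n) z l u, R₀ c ≤ ‖z / (ε : ℂ)‖ →
    (∀ j, N.cls j = c → (N.ra j = a ∨ N.rb j = a) → ¬ (0 < tt (N.d j) z ∧ |hh (N.d j) z| ≤ ε)) →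
    (disc N M r ε c).row a (N.pos c a + z) l u = prow (N.nu c a (z / (ε : ℂ))) l u)

/-- **WRW** (rows of walls; algebra).  PROOF.  (1) `cos (π/2) = 0`, `sin (π/2) = 1`.  (2) `cos 0 = 1`, `sin 0 = 0`.  (3) `cos (π/2 - θ) = sin θ`, `sin (π/2 - θ) = cos θ`, `p ≠ q`: unfold, `split_ifs`, `ring`. -/
def StWRW : Prop := ∀ (p q : ℤ), p ≠ q → ∀ (e θ : ℝ) (x : Bool) (v : ℂ) (l : ℤ) (u : ℂ),
  wrow p q e (Real.pi / 2) x v l u = prow (if x then q else p) l u ∧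
  wrow p q e 0 x v l u = prow (if x then p else q) l u ∧
  wrow q p (-e) (Real.pi / 2 - θ) x v l u = wrow p q e θ x v l u

end Pool.Agent.Helper38.UN
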